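import Pool.Agent.ISB.StmtsA

set_option autoImplicit false

namespace Pool.Agent.ISB.H82

open scoped Classical

theorem le_fk (n : ℕ) : ∀ k u, u ≤ fk n k u := by
  intro k
  induction k with
  | zero => intro u; exact le_refl u
  | succ k ih =>
    intro u
    show u ≤ fk n k ((fun u => fk n k u + 1)^[n] u)
    refine le_trans ?_ (ih _)
    have key : ∀ m : ℕ, u ≤ (fun u => fk n k u + 1)^[m] u := by
      intro m
      induction m with
      | zero => exact le_refl u
      | succ m ihm =>
        rw [Function.iterate_succ_apply']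
        exact le_trans ihm (le_trans (ih _) (Nat.le_succ _))
    exact key n

theorem krc (h1 : CalStmt) (h2 : IdlStmt) (h3 : GenStmt) (h4 : KrbStmt) : KrcStmt := by
  intro F L _ _ _ r n σ ζ hA A hS hn k hk hF s
  obtain ⟨cmono, ccomm, csup, cjac, cspan, cbot, citr, citrmono⟩ := h1 F L
  obtain ⟨ianti, iid, iitr, ist⟩ := h2 F L A hS.cl
  have ist' := ist σ hA.lie hS.st
  have hDA : ∀ t, dr A t ≤ A := fun t => ianti 0 t (Nat.zero_le _)
  have hG := fun t => h3 F L r σ ζ hA A (dr A t) (hDA t) (iid t) (ist' t)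
  have hle : ∀ m : ℕ, s ≤ (fun u => fk n k u + 1)^[m] s := by
    intro m
    induction m with
    | zero => exact le_refl s
    | succ m ihm =>
      rw [Function.iterate_succ_apply']
      exact le_trans ihm (le_trans (le_fk n k _) (Nat.le_succ _))
  have claim : ∀ j : ℕ, dr A ((fun u => fk n k u + 1)^[j] s) ⊓ W σ ζ k ≤
      gen σ ζ r (dr A s) (k + 1) ⊔ itr (dr A s ⊓ W σ ζ k) (A ⊓ W σ ζ 0) j := by
    intro j
    induction j with
    | zero => exact le_sup_right
    | succ j ih =>
      rw [Function.iterate_succ_apply']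
      have hb := h4 F L r σ ζ hA A hS k hk s ((fun u => fk n k u + 1)^[j] s)
        (fk n k ((fun u => fk n k u + 1)^[j] s)) (hle j) (hF _)
      refine le_trans hb (sup_le le_sup_left ?_)
      refine le_trans (cmono _ _ _ _ (le_refl _) ih) ?_
      rw [ccomm, csup]
      refine sup_le ?_ ?_
      · rw [ccomm]
        exact le_trans ((hG s).2.2.2.2.2.1 (k + 1)) le_sup_left
      · exact le_sup_right
  have hbot : itr (dr A s ⊓ W σ ζ k) (A ⊓ W σ ζ 0) n ≤ ⊥ := by
    refine le_trans (citrmono _ A _ (A ⊓ W σ ζ 0) n (le_trans inf_le_left (hDA s)) (le_refl _)) ?_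
    rw [hn]
  have hfin : dr A ((fun u => fk n k u + 1)^[n] s) ⊓ W σ ζ k ≤ gen σ ζ r (dr A s) (k + 1) :=
    le_trans (claim n) (sup_le (le_refl _) (le_trans hbot bot_le))
  have h4' := (hG ((fun u => fk n k u + 1)^[n] s)).2.2.2.1 (dr A s) k
    (ianti _ _ (hle n)) hfin
  exact le_trans (hF _) h4'

end Pool.Agent.ISB.H82
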